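import Mathlib

/-! Counting lemmas for Steiner systems of strength six. -/

namespace Pool.Agent.Lib.MP_081b1f_co
open Finset

variable {Ω : Type} [Fintype Ω] [DecidableEq Ω]

/-- A Steiner system of strength six with block size `k`. -/
structure St (k : ℕ) (𝔅 : Finset (Finset Ω)) : Prop where
  size : ∀ b ∈ 𝔅, b.card = k
  ex : ∀ T : Finset Ω, T.card = 6 → ∃ b ∈ 𝔅, T ⊆ b
  uniq : ∀ T : Finset Ω, T.card = 6 → ∀ b ∈ 𝔅, ∀ b' ∈ 𝔅, T ⊆ b → T ⊆ b' → b = b'

theorem St.lam {k : ℕ} {𝔅 : Finset (Finset Ω)} (h : St k 𝔅) (I : Finset Ω) (hI : I.card ≤ 6) :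
    (𝔅.filter (fun b => I ⊆ b)).card * (k - I.card).choose (6 - I.card) =
      (Fintype.card Ω - I.card).choose (6 - I.card) := by
  have h1 := card_filter_powersetCard_subset I (univ : Finset Ω) 6 (subset_univ _) hI
  rw [card_univ] at h1
  rw [← h1]
  have h2 : ((univ : Finset Ω).powersetCard 6).filter (fun T => I ⊆ T) =
      (𝔅.filter (fun b => I ⊆ b)).biUnion (fun b => (b.powersetCard 6).filter (fun T => I ⊆ T)) := by
    ext T
    simp only [mem_filter, mem_powersetCard, subset_univ, true_and, mem_biUnion]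
    constructor
    · rintro ⟨hT, hIT⟩
      obtain ⟨b, hb, hTb⟩ := h.ex T hT
      exact ⟨b, ⟨hb, hIT.trans hTb⟩, ⟨hTb, hT⟩, hIT⟩
    · rintro ⟨b, -, ⟨-, hT⟩, hIT⟩
      exact ⟨hT, hIT⟩
  rw [h2, card_biUnion]
  · rw [Finset.sum_congr rfl (g := fun _ => (k - I.card).choose (6 - I.card))]
    · simp
    · intro b hb
      rw [mem_filter] at hb
      rw [card_filter_powersetCard_subset I b 6 hb.2 hI, h.size b hb.1]
  · intro b hb b' hb' hne
    rw [Function.onFun, Finset.disjoint_left]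
    intro T hT hT'
    simp only [mem_filter, mem_powersetCard, coe_filter, Set.mem_setOf_eq] at hT hT' hb hb'
    exact hne (h.uniq T hT.1.2 b hb.1 b' hb'.1 hT.1.1 hT'.1.1)

theorem St.dvd {k : ℕ} {𝔅 : Finset (Finset Ω)} (h : St k 𝔅) (i : ℕ) (hi : i ≤ 6)
    (hv : 6 ≤ Fintype.card Ω) :
    (k - i).choose (6 - i) ∣ (Fintype.card Ω - i).choose (6 - i) := by
  obtain ⟨I, -, hI⟩ := exists_subset_card_eq (s := (univ : Finset Ω)) (n := i)
    (by rw [card_univ]; omega)
  have := h.lam I (by omega)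
  rw [hI] at this
  exact Dvd.intro_left _ this

theorem St.count {k : ℕ} {𝔅 : Finset (Finset Ω)} (h : St k 𝔅) :
    𝔅.card * k.choose 6 = (Fintype.card Ω).choose 6 := by
  have := h.lam ∅ (by simp)
  simpa using this

theorem St.fisher {k : ℕ} {𝔅 : Finset (Finset Ω)} (h : St k 𝔅) (hk : 6 < k)
    (hv : k < Fintype.card Ω) : (k - 4) * (k - 5) ≤ Fintype.card Ω - 5 := by
  obtain ⟨T, -, hT⟩ := exists_subset_card_eq (s := (univ : Finset Ω)) (n := 6)
    (by rw [card_univ]; omega)
  obtain ⟨B, hB, -⟩ := h.ex T hT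
  have hBk := h.size B hB
  obtain ⟨Q, hQB, hQ⟩ := exists_subset_card_eq (s := B) (n := 4) (by omega)
  obtain ⟨x, -, hx⟩ := exists_mem_notMem_of_card_lt_card (s := B) (t := univ)
    (by rw [card_univ]; omega)
  have hxQ : x ∉ Q := fun hh => hx (hQB hh)
  have hP : (insert x Q).card = 5 := by rw [card_insert_of_notMem hxQ, hQ]
  have h1 := h.lam (insert x Q) (by omega)
  rw [hP] at h1
  simp only [show 6 - 5 = 1 from rfl, Nat.choose_one_right] at h1
  rw [← h1]
  apply Nat.mul_le_mul_right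
  have hy : ∀ y ∈ B \ Q, (insert y (insert x Q)).card = 6 := by
    intro y hy
    rw [mem_sdiff] at hy
    rw [card_insert_of_notMem, hP]
    simp only [mem_insert, not_or]
    exact ⟨fun hh => hx (hh ▸ hy.1), hy.2⟩
  have hc : (B \ Q).card = k - 4 := by rw [card_sdiff_of_subset hQB, hBk, hQ]
  rw [← hc]
  choose! f hf using fun y (hyy : y ∈ B \ Q) => h.ex _ (hy y hyy)
  refine card_le_card_of_injOn f ?_ ?_
  · intro y hyy
    have := hf y hyy
    simp only [coe_filter, Set.mem_setOf_eq]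
    exact ⟨this.1, (subset_insert _ _).trans this.2⟩
  · intro y hyy y' hyy' hff
    by_contra hne
    have a1 := hf y hyy
    have a2 := hf y' hyy'
    have hyy1 := mem_sdiff.mp (mem_coe.mp hyy)
    have hyy2 := mem_sdiff.mp (mem_coe.mp hyy')
    have hc6 : (insert y (insert y' Q)).card = 6 := by
      rw [card_insert_of_notMem, card_insert_of_notMem hyy2.2, hQ]
      simp only [mem_insert, not_or]
      exact ⟨hne, hyy1.2⟩
    have hsub1 : insert y (insert y' Q) ⊆ B := by
      intro z hz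
      simp only [mem_insert] at hz
      rcases hz with rfl | rfl | hz
      exacts [hyy1.1, hyy2.1, hQB hz]
    have hsub2 : insert y (insert y' Q) ⊆ f y := by
      intro z hz
      simp only [mem_insert] at hz
      rcases hz with rfl | rfl | hz
      · exact a1.2 (mem_insert_self _ _)
      · rw [hff]; exact a2.2 (mem_insert_self _ _)
      · exact a1.2 (mem_insert_of_mem (mem_insert_of_mem hz))
    have := h.uniq _ hc6 B hB (f y) a1.1 hsub1 hsub2
    exact hx (this ▸ a1.2 (mem_insert_of_mem (mem_insert_self _ _)))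

/-- Ordered triples of points of `S` in three different cycles of `σ`. -/
def Tr (σ : Equiv.Perm Ω) (S : Finset Ω) : Finset (Σ _ : Ω, Σ _ : Ω, Ω) :=
  S.sigma (fun x => (S \ {x, σ x}).sigma (fun y => S \ {x, σ x, y, σ y}))

theorem card_Tr (σ : Equiv.Perm Ω) (hσ : ∀ x, σ (σ x) = x) (S : Finset Ω)
    (hS : ∀ x ∈ S, σ x ∈ S) (hne : ∀ x ∈ S, σ x ≠ x) :
    (Tr σ S).card = S.card * ((S.card - 2) * (S.card - 4)) := by
  unfold Tr
  rw [card_sigma, Finset.sum_congr rfl (g := fun _ => (S.card - 2) * (S.card - 4))]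
  · simp
  intro x hx
  have h2 : (S \ {x, σ x}).card = S.card - 2 := by
    rw [card_sdiff_of_subset, card_pair (hne x hx).symm]
    intro z hz
    simp only [mem_insert, mem_singleton] at hz
    rcases hz with rfl | rfl
    exacts [hx, hS x hx]
  rw [card_sigma, Finset.sum_congr rfl (g := fun _ => S.card - 4)]
  · simp [h2]
  intro y hy
  simp only [mem_sdiff, mem_insert, mem_singleton, not_or] at hy
  have e1 : σ y ≠ x := fun hh => hy.2.2 (by rw [← hh, hσ])
  have e2 : σ y ≠ σ x := fun hh => hy.2.1 (σ.injective hh)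
  rw [card_sdiff_of_subset]
  · congr 1
    rw [card_insert_of_notMem, card_insert_of_notMem, card_pair (hne y hy.1).symm]
    · simp only [mem_insert, mem_singleton, not_or]
      exact ⟨fun hh => hy.2.2 hh.symm, e2.symm⟩
    · simp only [mem_insert, mem_singleton, not_or]
      exact ⟨(hne x hx).symm, fun hh => hy.2.1 hh.symm, e1.symm⟩
  · intro z hz
    simp only [mem_insert, mem_singleton] at hz
    rcases hz with rfl | rfl | rfl | rfl
    exacts [hx, hS x hx, hy.1, hS y hy.1]

/-- An involution fixes many blocks. -/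
theorem St.fixed {k : ℕ} {𝔅 : Finset (Finset Ω)} (h : St k 𝔅) (σ : Equiv.Perm Ω)
    (hσ : ∀ x, σ (σ x) = x) (hB : ∀ b ∈ 𝔅, b.map σ.toEmbedding ∈ 𝔅) :
    let m := (univ.filter (fun x => σ x ≠ x)).card
    m * ((m - 2) * (m - 4)) ≤
      (𝔅.filter (fun b => b.map σ.toEmbedding = b)).card * (k * ((k - 2) * (k - 4))) := by
  intro m
  set M := univ.filter (fun x => σ x ≠ x) with hM
  have hMσ : ∀ x ∈ M, σ x ∈ M := by
    intro x hx
    simp only [hM, mem_filter, mem_univ, true_and] at hx ⊢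
    exact fun hh => hx (σ.injective hh)
  have hMne : ∀ x ∈ M, σ x ≠ x := fun x hx => (mem_filter.mp hx).2
  rw [← card_Tr σ hσ M hMσ hMne]
  have hsub : Tr σ M ⊆ (𝔅.filter (fun b => b.map σ.toEmbedding = b)).biUnion
      (fun b => Tr σ (M ∩ b)) := by
    rintro ⟨x, y, z⟩ ht
    simp only [Tr, mem_sigma, mem_sdiff, mem_insert, mem_singleton, not_or] at ht
    obtain ⟨hx, ⟨hy, hyx, hyx'⟩, hz, hzx, hzx', hzy, hzy'⟩ := ht
    have nx := hMne x hx
    have ny := hMne y hy
    have nz := hMne z hz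
    have e1 : σ y ≠ x := fun hh => hyx' (by rw [← hh, hσ])
    have e2 : σ y ≠ σ x := fun hh => hyx (σ.injective hh)
    have e3 : σ z ≠ x := fun hh => hzx' (by rw [← hh, hσ])
    have e4 : σ z ≠ σ x := fun hh => hzx (σ.injective hh)
    have e5 : σ z ≠ y := fun hh => hzy' (by rw [← hh, hσ])
    have e6 : σ z ≠ σ y := fun hh => hzy (σ.injective hh)
    have hT : ({x, σ x, y, σ y, z, σ z} : Finset Ω).card = 6 := by
      rw [card_insert_of_notMem, card_insert_of_notMem, card_insert_of_notMem,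
        card_insert_of_notMem, card_pair nz.symm]
      all_goals simp only [mem_insert, mem_singleton, not_or]
      · exact ⟨fun hh => hzy' hh.symm, e6.symm⟩
      · exact ⟨ny.symm, fun hh => hzy hh.symm, e5.symm⟩
      · exact ⟨fun hh => hyx' hh.symm, e2.symm, fun hh => hzx' hh.symm, e4.symm⟩
      · exact ⟨nx.symm, fun hh => hyx hh.symm, e1.symm, fun hh => hzx hh.symm, e3.symm⟩
    obtain ⟨b, hb, hTb⟩ := h.ex _ hT
    have hfix : b.map σ.toEmbedding = b := by
      refine h.uniq _ hT _ (hB b hb) b hb ?_ hTb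
      intro w hw
      rw [mem_map]
      refine ⟨σ w, hTb ?_, by simp [hσ]⟩
      simp only [mem_insert, mem_singleton] at hw ⊢
      rcases hw with rfl | rfl | rfl | rfl | rfl | rfl <;> simp [hσ]
    rw [mem_biUnion]
    refine ⟨b, mem_filter.mpr ⟨hb, hfix⟩, ?_⟩
    simp only [Tr, mem_sigma, mem_sdiff, mem_insert, mem_singleton, not_or, mem_inter]
    exact ⟨⟨hx, hTb (by simp)⟩, ⟨⟨hy, hTb (by simp)⟩, hyx, hyx'⟩, ⟨hz, hTb (by simp)⟩,
      hzx, hzx', hzy, hzy'⟩
  refine (card_le_card hsub).trans (card_biUnion_le_card_mul _ _ _ ?_)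
  intro b hb
  rw [mem_filter] at hb
  rw [card_Tr σ hσ (M ∩ b)]
  · have : (M ∩ b).card ≤ k := by
      rw [← h.size b hb.1]; exact card_le_card inter_subset_right
    gcongr
  · intro x hx
    rw [mem_inter] at hx ⊢
    refine ⟨hMσ x hx.1, ?_⟩
    rw [← hb.2]
    exact mem_map_of_mem _ hx.2
  · intro x hx
    exact hMne x (mem_inter.mp hx).1

end Pool.Agent.Lib.MP_081b1f_co
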