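import Mathlib

/-! The numerical part. -/

namespace Pool.Agent.Lib.MP_081b1f_co

/-- The two inequalities that are needed. -/
def Good (q e k : ℕ) : Prop :=
  e * (q * q - 1) * k.choose 6 < (q + 1).choose 6 ∧ 2 * e * (k * ((k - 2) * (k - 4))) < (q - 3) * (q - 5)

instance (q e k : ℕ) : Decidable (Good q e k) := by unfold Good; infer_instance

def ch (n i : ℕ) : ℕ := n.descFactorial i / i.factorial

theorem ch_eq (n i : ℕ) : ch n i = n.choose i := (Nat.choose_eq_descFactorial_div_factorial n i).symm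

def okS (q e k : ℕ) : Bool :=
  decide (q - 4 < (k - 4) * (k - 5)) ||
  (decide (e * (q * q - 1) * ch k 6 < ch (q + 1) 6) &&
    decide (2 * e * (k * ((k - 2) * (k - 4))) < (q - 3) * (q - 5))) ||
  (List.range 6).any (fun i => ch (q + 1 - i) (6 - i) % ch (k - i) (6 - i) != 0) ||
  (q == 16 && k == 7) || (q == 64 && k == 9)

def chkS : Bool :=
  (List.range 1024).all fun p => p < 2 || p == 18 || (List.range 10).all fun e =>
    e == 0 || decide (1024 ≤ p ^ e) || (List.range 38).all fun k => k < 7 || okS (p ^ e) e k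

theorem chkS_true : chkS = true := by decide +kernel

theorem small (p e k : ℕ) (hp : p.Prime) (he : 0 < e) (hq : p ^ e < 1024) (hk : 6 < k)
    (hf : (k - 4) * (k - 5) ≤ p ^ e + 1 - 5)
    (hd : ∀ i, i ≤ 6 → (k - i).choose (6 - i) ∣ (p ^ e + 1 - i).choose (6 - i)) :
    Good (p ^ e) e k ∨ (p ^ e = 16 ∧ k = 7) ∨ (p ^ e = 64 ∧ k = 9) := by
  have h2 := hp.two_le
  have hp1 : p < 1024 := lt_of_le_of_lt (Nat.le_self_pow he.ne' p) hq
  have he1 : e < 10 := by
    by_contra hh
    have : 2 ^ 10 ≤ p ^ e := (Nat.pow_le_pow_right (by norm_num) (by omega)).trans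
      (Nat.pow_le_pow_left h2 e)
    omega
  have hk1 : k < 38 := by
    by_contra hh
    have : 34 * 33 ≤ (k - 4) * (k - 5) := Nat.mul_le_mul (by omega) (by omega)
    omega
  have h := chkS_true
  simp only [chkS, List.all_eq_true, List.mem_range, Bool.or_eq_true, decide_eq_true_eq,
    beq_iff_eq] at h
  have h18 : p ≠ 18 := by rintro rfl; revert hp; decide
  rcases h p hp1 with (h | h) | h
  · omega
  · exact absurd h h18
  rcases h e he1 with (h | h) | h
  · omega
  · omega
  rcases h k hk1 with h | h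
  · omega
  simp only [okS, Bool.or_eq_true, decide_eq_true_eq, Bool.and_eq_true, List.any_eq_true,
    List.mem_range, bne_iff_ne, beq_iff_eq, ch_eq] at h
  rcases h with (((h | h) | h) | h) | h
  · omega
  · exact Or.inl h
  · obtain ⟨i, hi, h⟩ := h
    exact absurd (Nat.mod_eq_zero_of_dvd (hd i hi.le)) h
  · exact Or.inr (Or.inl h)
  · exact Or.inr (Or.inr h)

theorem nine_sq (e : ℕ) (he : 11 ≤ e) : 9 * e ^ 2 ≤ 2 ^ e := by
  induction e, he using Nat.le_induction with
  | base => norm_num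
  | succ n hn ih => rw [pow_succ 2 n]; nlinarith

theorem choose6 (n : ℕ) : 720 * n.choose 6 = n * (n - 1) * (n - 2) * (n - 3) * (n - 4) * (n - 5) := by
  have := Nat.descFactorial_eq_factorial_mul_choose n 6
  simp only [Nat.descFactorial_succ, Nat.descFactorial_zero] at this
  norm_num [Nat.factorial] at this
  rw [← this]; ring

theorem large (q e k : ℕ) (h2 : 2 ^ e ≤ q) (hq : 1024 ≤ q) (hk : 6 < k)
    (hf : (k - 4) * (k - 5) ≤ q + 1 - 5) : Good q e k := by
  have he : 9 * e ^ 2 ≤ q := by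
    by_cases h : 11 ≤ e
    · exact (nine_sq e h).trans h2
    · have : e ≤ 10 := by omega
      nlinarith
  set t := Nat.sqrt q with ht
  have t1 : t * t ≤ q := Nat.sqrt_le q
  have t2 : 32 ≤ t := Nat.le_sqrt.mpr (by omega)
  have t3 : 3 * e ≤ t := Nat.le_sqrt.mpr (by nlinarith)
  obtain ⟨s, rfl⟩ : ∃ s, k = s + 5 := ⟨k - 5, by omega⟩
  obtain ⟨r, rfl⟩ : ∃ r, q = r + 5 := ⟨q - 5, by omega⟩
  have f1 : (s + 1) * s ≤ r + 1 := by
    have a : s + 5 - 4 = s + 1 := by omega
    have b : s + 5 - 5 = s := by omega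
    rw [a, b] at hf; omega
  have t4 : s ≤ t := Nat.le_sqrt.mpr (by nlinarith)
  have r1 : t * t ≤ r + 5 := t1
  constructor
  · have c1 := choose6 (s + 5)
    have c2 := choose6 (r + 5 + 1)
    simp only [show s + 5 - 1 = s + 4 by omega, show s + 5 - 2 = s + 3 by omega,
      show s + 5 - 3 = s + 2 by omega, show s + 5 - 4 = s + 1 by omega,
      show s + 5 - 5 = s by omega] at c1
    simp only [show r + 5 + 1 - 1 = r + 5 by omega, show r + 5 + 1 - 2 = r + 4 by omega,
      show r + 5 + 1 - 3 = r + 3 by omega, show r + 5 + 1 - 4 = r + 2 by omega,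
      show r + 5 + 1 - 5 = r + 1 by omega] at c2
    have c3 : (r + 5) * (r + 5) - 1 = (r + 6) * (r + 4) := by
      have : (r + 5) * (r + 5) = (r + 6) * (r + 4) + 1 := by ring
      omega
    rw [c3]
    apply Nat.lt_of_mul_lt_mul_left (a := 720)
    rw [c2]
    have d1 : 720 * (e * ((r + 6) * (r + 4)) * (s + 5).choose 6) =
        (r + 6) * (r + 4) * ((e * ((s + 5) * (s + 4) * (s + 3) * (s + 2))) * ((s + 1) * s)) := by
      calc 720 * (e * ((r + 6) * (r + 4)) * (s + 5).choose 6)
          = e * ((r + 6) * (r + 4)) * (720 * (s + 5).choose 6) := by ring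
        _ = _ := by rw [c1]; ring
    have d2 : (r + 5 + 1) * (r + 5) * (r + 4) * (r + 3) * (r + 2) * (r + 1) =
        (r + 6) * (r + 4) * (((r + 5) * (r + 3) * (r + 2)) * (r + 1)) := by ring
    rw [d1, d2]
    apply Nat.mul_lt_mul_of_pos_left _ (by positivity)
    have d3 : e * ((s + 5) * (s + 4) * (s + 3) * (s + 2)) < (r + 5) * (r + 3) * (r + 2) := by
      have u1 : (s + 5) * (s + 4) ≤ 2 * (r + 3) := by nlinarith
      have u2 : (s + 3) * (s + 2) ≤ 2 * (r + 2) := by nlinarith
      have u3 : 4 * e < r + 5 := by nlinarith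
      calc e * ((s + 5) * (s + 4) * (s + 3) * (s + 2))
          = e * (((s + 5) * (s + 4)) * ((s + 3) * (s + 2))) := by ring
        _ ≤ e * ((2 * (r + 3)) * (2 * (r + 2))) := by gcongr
        _ = (4 * e) * ((r + 3) * (r + 2)) := by ring
        _ < (r + 5) * ((r + 3) * (r + 2)) := by
          apply Nat.mul_lt_mul_of_pos_right u3 (by positivity)
        _ = _ := by ring
    calc (e * ((s + 5) * (s + 4) * (s + 3) * (s + 2))) * ((s + 1) * s)
        ≤ (e * ((s + 5) * (s + 4) * (s + 3) * (s + 2))) * (r + 1) := by gcongr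
      _ < _ := Nat.mul_lt_mul_of_pos_right d3 (by positivity)
  · simp only [show s + 5 - 2 = s + 3 by omega, show s + 5 - 4 = s + 1 by omega,
      show r + 5 - 3 = r + 2 by omega, show r + 5 - 5 = r by omega]
    obtain ⟨w, hw⟩ : ∃ w, t = w + 32 := ⟨t - 32, by omega⟩
    have v1 : 3 * (2 * e * ((s + 5) * ((s + 3) * (s + 1)))) ≤
        2 * t * ((t + 5) * ((t + 3) * (t + 1))) := by
      calc 3 * (2 * e * ((s + 5) * ((s + 3) * (s + 1))))
          = 2 * (3 * e) * ((s + 5) * ((s + 3) * (s + 1))) := by ring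
        _ ≤ _ := by gcongr
    obtain ⟨a, ha⟩ : ∃ a, t * t = a + 5 := ⟨t * t - 5, by nlinarith [Nat.sub_add_cancel (show 5 ≤ t * t by nlinarith)]⟩
    have a1 : a ≤ r := by omega
    have v2 : (a + 2) * a ≤ (r + 2) * r := by gcongr
    have v3 : 2 * t * ((t + 5) * ((t + 3) * (t + 1))) < 3 * ((a + 2) * a) := by
      have : (a : ℤ) = t * t - 5 := by have := congrArg (Nat.cast : ℕ → ℤ) ha; push_cast at this; linarith
      zify
      rw [this, hw]
      push_cast
      have : (0 : ℤ) ≤ w := by positivity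
      nlinarith [pow_nonneg this 2, pow_nonneg this 3, pow_nonneg this 4]
    omega

theorem num (p e k : ℕ) (hp : p.Prime) (he : 0 < e) (hk : 6 < k)
    (hf : (k - 4) * (k - 5) ≤ p ^ e + 1 - 5)
    (hd : ∀ i, i ≤ 6 → (k - i).choose (6 - i) ∣ (p ^ e + 1 - i).choose (6 - i)) :
    Good (p ^ e) e k ∨ (p ^ e = 16 ∧ k = 7) ∨ (p ^ e = 64 ∧ k = 9) := by
  by_cases hq : p ^ e < 1024
  · exact small p e k hp he hq hk hf hd
  · exact Or.inl (large _ e k (Nat.pow_le_pow_left hp.two_le e) (by omega) hk hf)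

end Pool.Agent.Lib.MP_081b1f_co
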