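import Pool.Agent.Lib.MP_081b1f_co.Des
import Pool.Agent.Lib.MP_081b1f_co.Num

/-! The group theoretic part, for an abstract pair of permutation groups. -/

namespace Pool.Agent.Lib.MP_081b1f_co
open Finset Equiv

variable {Ω : Type} [Fintype Ω] [DecidableEq Ω]

open Classical in
/-- The elements of a permutation group as a finite set. -/
noncomputable def els (K : Subgroup (Perm Ω)) : Finset (Perm Ω) := univ.filter (fun g => g ∈ K)

theorem mem_els {K : Subgroup (Perm Ω)} {g : Perm Ω} : g ∈ els K ↔ g ∈ K := by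
  simp [els]

theorem card_els (K : Subgroup (Perm Ω)) : (els K).card = Nat.card K := by
  classical
  rw [Nat.card_eq_fintype_card, Fintype.card_subtype]
  congr

theorem els_pos (K : Subgroup (Perm Ω)) : 0 < (els K).card :=
  card_pos.mpr ⟨1, mem_els.mpr K.one_mem⟩

theorem fib_le {X : Type} [DecidableEq X] (K : Subgroup (Perm Ω)) (U : Finset (Perm Ω))
    (φ : Perm Ω → X) (hU : ∀ g ∈ K, ∀ g' ∈ K, φ g = φ g' → g⁻¹ * g' ∈ U) (y : X) :
    ((els K).filter (fun g => φ g = y)).card ≤ U.card := by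
  rcases ((els K).filter (fun g => φ g = y)).eq_empty_or_nonempty with h | ⟨g0, hg0⟩
  · rw [h]; simp
  rw [mem_filter, mem_els] at hg0
  refine card_le_card_of_injOn (fun g => g0⁻¹ * g) ?_ ?_
  · intro g hg
    simp only [coe_filter, Set.mem_setOf_eq, mem_els] at hg
    exact hU g0 hg0.1 g hg.1 (hg0.2.trans hg.2.symm)
  · intro g _ g' _ h
    exact mul_left_cancel h

theorem all_le {X : Type} [DecidableEq X] (K : Subgroup (Perm Ω)) (U : Finset (Perm Ω))
    (φ : Perm Ω → X) (hU : ∀ g ∈ K, ∀ g' ∈ K, φ g = φ g' → g⁻¹ * g' ∈ U) (t : Finset X)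
    (ht : ∀ g ∈ K, φ g ∈ t) : (els K).card ≤ U.card * t.card :=
  card_le_mul_card_image_of_maps_to (fun g hg => ht g (mem_els.mp hg)) _
    (fun y _ => fib_le K U φ hU y)

theorem fib_eq {X : Type} [DecidableEq X] (K U : Subgroup (Perm Ω)) (hUK : U ≤ K)
    (φ : Perm Ω → X) (hU : ∀ g ∈ K, ∀ g' ∈ K, φ g = φ g' ↔ g⁻¹ * g' ∈ U) (t : Finset X)
    (ht : ∀ y ∈ t, ∃ g ∈ K, φ g = y) :
    ((els K).filter (fun g => φ g ∈ t)).card = t.card * (els U).card := by
  rw [card_eq_sum_card_fiberwise (f := φ) (s := (els K).filter (fun g => φ g ∈ t)) (t := t)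
    (fun g hg => (mem_filter.mp (mem_coe.mp hg)).2),
    Finset.sum_congr rfl (g := fun _ => (els U).card)]
  · simp
  intro y hy
  obtain ⟨g0, hg0, rfl⟩ := ht y hy
  symm
  refine card_bij (fun u _ => g0 * u) ?_ ?_ ?_
  · intro u hu
    rw [mem_els] at hu
    have h1 : g0 * u ∈ K := K.mul_mem hg0 (hUK hu)
    have h2 : φ g0 = φ (g0 * u) := (hU g0 hg0 _ h1).mpr (by simpa using hu)
    simp only [mem_filter, mem_els]
    exact ⟨⟨h1, h2 ▸ hy⟩, h2.symm⟩
  · intro u _ u' _ h
    exact mul_left_cancel h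
  · intro g hg
    simp only [mem_filter, mem_els] at hg
    exact ⟨g0⁻¹ * g, mem_els.mpr ((hU g0 hg0 g hg.1.1).mp hg.2.symm), by simp⟩

/-- Image of a finite set. -/
def img (g : Perm Ω) (b : Finset Ω) : Finset Ω := b.map g.toEmbedding

theorem img_mul (g h : Perm Ω) (b : Finset Ω) : img (g * h) b = img g (img h b) := by
  unfold img; rw [Finset.map_map]; rfl

theorem img_one (b : Finset Ω) : img 1 b = b := by
  unfold img; exact Finset.map_refl

/-- Setwise stabiliser. -/
def stb (b : Finset Ω) : Subgroup (Perm Ω) where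
  carrier := {g | img g b = b}
  one_mem' := img_one b
  mul_mem' := by
    intro g h hg hh
    simp only [Set.mem_setOf_eq] at hg hh ⊢
    rw [img_mul, hh, hg]
  inv_mem' := by
    intro g hg
    simp only [Set.mem_setOf_eq] at hg ⊢
    conv_lhs => rw [← hg]
    rw [← img_mul, inv_mul_cancel, img_one]

theorem mem_stb {b : Finset Ω} {g : Perm Ω} : g ∈ stb b ↔ img g b = b := Iff.rfl

theorem blocks_count (G : Subgroup (Perm Ω)) (B0 : Finset Ω) (N : Finset (Finset Ω))
    (hN : ∀ b ∈ N, ∃ g ∈ G, img g B0 = b) :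
    ((els G).filter (fun g => img g B0 ∈ N)).card = N.card * (els (G ⊓ stb B0)).card := by
  refine fib_eq G (G ⊓ stb B0) inf_le_left (fun g => img g B0) ?_ N hN
  intro g hg g' hg'
  rw [Subgroup.mem_inf, mem_stb, img_mul]
  constructor
  · intro h
    refine ⟨G.mul_mem (G.inv_mem hg) hg', ?_⟩
    rw [← h, ← img_mul, inv_mul_cancel, img_one]
  · rintro ⟨-, h⟩
    conv_lhs => rw [← h]
    rw [← img_mul, mul_inv_cancel, img_one]

theorem fixed_le_cent (G : Subgroup (Perm Ω)) (B0 : Finset Ω) (σ : Perm Ω) (hσ : σ ∈ G)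
    (N : Finset (Finset Ω)) (hN : ∀ b ∈ N, ∃ g ∈ G, img g B0 = b) (hf : ∀ b ∈ N, img σ b = b) :
    N.card ≤ (els (G ⊓ Subgroup.centralizer {σ})).card := by
  have h1 := blocks_count G B0 N hN
  have h2 : ((els G).filter (fun g => img g B0 ∈ N)).card ≤
      (els (G ⊓ Subgroup.centralizer {σ})).card * (els (G ⊓ stb B0)).card := by
    refine card_le_mul_card_image_of_maps_to (f := fun g => g⁻¹ * σ * g) ?_ _ ?_
    · intro g hg
      rw [mem_filter, mem_els] at hg
      rw [mem_els, Subgroup.mem_inf, mem_stb]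
      refine ⟨G.mul_mem (G.mul_mem (G.inv_mem hg.1) hσ) hg.1, ?_⟩
      rw [img_mul, img_mul, hf _ hg.2, ← img_mul, inv_mul_cancel, img_one]
    · intro y _
      rcases (((els G).filter (fun g => img g B0 ∈ N)).filter
        (fun g => g⁻¹ * σ * g = y)).eq_empty_or_nonempty with h | ⟨g0, hg0⟩
      · rw [h]; simp
      simp only [mem_filter, mem_els] at hg0
      refine card_le_card_of_injOn (fun g => g * g0⁻¹) ?_ ?_
      · intro g hg
        simp only [coe_filter, Set.mem_setOf_eq, mem_els, mem_filter] at hg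
        simp only [mem_coe, mem_els, Subgroup.mem_inf, Subgroup.mem_centralizer_iff,
          Set.mem_singleton_iff, forall_eq]
        refine ⟨G.mul_mem hg.1.1 (G.inv_mem hg0.1.1), ?_⟩
        have e : g⁻¹ * σ * g = g0⁻¹ * σ * g0 := hg.2.trans hg0.2.symm
        calc σ * (g * g0⁻¹) = g * (g⁻¹ * σ * g) * g0⁻¹ := by group
          _ = g * (g0⁻¹ * σ * g0) * g0⁻¹ := by rw [e]
          _ = g * g0⁻¹ * σ := by group
      · intro g _ g' _ h
        exact mul_right_cancel h
  rw [h1] at h2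
  exact Nat.le_of_mul_le_mul_right h2 (els_pos _)

theorem modp {p : ℕ} (hp : p.Prime) (g : Perm Ω) (hg : g ^ p = 1) (O : Finset Ω)
    (hO : ∀ x, g x ∈ O ↔ x ∈ O) :
    (O.filter (fun x => g x = x)).card ≡ O.card [MOD p] := by
  haveI : Fact p.Prime := ⟨hp⟩
  have h1 : (g.subtypePerm (p := fun x => x ∈ O) hO) ^ p ^ 1 = 1 := by
    rw [pow_one, Perm.subtypePerm_pow]
    ext x
    simp [hg]
  have h2 := Perm.card_compl_support_modEq h1
  rw [Fintype.card_coe] at h2
  convert h2 using 1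
  refine card_bij (fun x hx => ⟨x, (mem_filter.mp hx).1⟩) ?_ ?_ ?_
  · intro x hx
    simp only [mem_compl, Perm.mem_support, not_not]
    exact Subtype.ext (mem_filter.mp hx).2
  · intro x _ y _ h
    exact congrArg Subtype.val h
  · intro x hx
    simp only [mem_compl, Perm.mem_support, not_not] at hx
    exact ⟨x.1, mem_filter.mpr ⟨x.2, congrArg Subtype.val hx⟩, rfl⟩

theorem fix_le_two (g : Perm Ω)
    (h3 : ∀ x y z, x ≠ y → x ≠ z → y ≠ z → g x = x → g y = y → g z = z → g = 1) (hg : g ≠ 1) :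
    (univ.filter (fun x => g x = x)).card ≤ 2 := by
  by_contra h
  obtain ⟨x, hx, y, hy, z, hz, a, b, c⟩ := two_lt_card.mp (not_le.mp h)
  exact hg (h3 x y z a b c (mem_filter.mp hx).2 (mem_filter.mp hy).2 (mem_filter.mp hz).2)

/-- A large point stabiliser contains an element with only one fixed point. -/
theorem exists_one_fixed (K : Subgroup (Perm Ω)) (x : Ω) (hx : ∀ g ∈ K, g x = x) (q : ℕ)
    (hq : Fintype.card Ω = q + 1) (hq1 : 1 < q)
    (h3 : ∀ g ∈ K, ∀ x y z, x ≠ y → x ≠ z → y ≠ z → g x = x → g y = y → g z = z → g = 1)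
    (hK : q - 1 < (els K).card) : ∃ g ∈ K, ∀ y, g y = y → y = x := by
  classical
  by_contra hcon
  push Not at hcon
  have hB := MulAction.sum_card_fixedBy_eq_card_orbits_mul_card_group K Ω
  have h2 : ∀ g : K, Fintype.card (MulAction.fixedBy Ω g) = 2 + if g = 1 then q - 1 else 0 := by
    intro g
    have e : Fintype.card (MulAction.fixedBy Ω g) =
        (univ.filter (fun y => (g : Perm Ω) y = y)).card := by
      rw [Fintype.card_subtype]
      congr
    rw [e]
    split_ifs with h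
    · subst h
      simp [hq]; omega
    · have hg1 : (g : Perm Ω) ≠ 1 := fun hh => h (Subtype.ext hh)
      refine le_antisymm (fix_le_two _ (h3 g g.2) hg1) ?_
      obtain ⟨y, hy, hyx⟩ := hcon g g.2
      exact one_lt_card.mpr ⟨y, by simp [hy], x, by simp [hx g g.2], hyx⟩
  simp only [h2, Finset.sum_add_distrib, Finset.sum_ite_eq', mem_univ, if_true, Finset.sum_const,
    card_univ, smul_eq_mul] at hB
  rw [card_els, Nat.card_eq_fintype_card] at hK
  have hd : Fintype.card K ∣ q - 1 := by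
    have : Fintype.card K ∣ Fintype.card K * 2 + (q - 1) := hB ▸ Dvd.intro_left _ rfl
    exact (Nat.dvd_add_right (Dvd.intro _ rfl)).mp this
  have := Nat.le_of_dvd (by omega) hd
  omega

/-- A large group contains an involution. -/
theorem exists_invol (H : Subgroup (Perm Ω)) {p e q : ℕ} (hp : p.Prime) (he : 0 < e)
    (hqp : q = p ^ e) (hq : Fintype.card Ω = q + 1)
    (h3 : ∀ g ∈ H, ∀ x y z, x ≠ y → x ≠ z → y ≠ z → g x = x → g y = y → g z = z → g = 1)
    (h1 : ∀ g ∈ H, ∀ x, g x = x → (∀ y, g y = y → y = x) → g ^ p = 1)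
    (hH : q * q - 1 < (els H).card) : ∃ σ ∈ H, σ ≠ 1 ∧ σ * σ = 1 := by
  classical
  have hq1 : 1 < q := hqp ▸ Nat.one_lt_pow he.ne' hp.one_lt
  have hx : ∀ x : Ω, ∃ g ∈ H, g x = x ∧ (∀ y, g y = y → y = x) ∧ g ^ p = 1 := by
    intro x
    have a1 : (els H).card ≤ (els (H ⊓ MulAction.stabilizer (Perm Ω) x)).card *
        (univ : Finset Ω).card := by
      refine all_le H _ (fun g => g x) ?_ univ (fun _ _ => mem_univ _)
      intro g hg g' hg' h
      rw [mem_els, Subgroup.mem_inf, MulAction.mem_stabilizer_iff]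
      refine ⟨H.mul_mem (H.inv_mem hg) hg', ?_⟩
      simp only [Perm.smul_def, Perm.coe_mul, Function.comp_apply]
      rw [← h]; simp
    rw [card_univ, hq] at a1
    have a2 : q - 1 < (els (H ⊓ MulAction.stabilizer (Perm Ω) x)).card := by
      by_contra hh
      have : (els (H ⊓ MulAction.stabilizer (Perm Ω) x)).card * (q + 1) ≤ (q - 1) * (q + 1) :=
        Nat.mul_le_mul_right _ (not_lt.mp hh)
      obtain ⟨r, rfl⟩ : ∃ r, q = r + 1 := ⟨q - 1, by omega⟩
      simp only [Nat.add_sub_cancel] at this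
      have : (r + 1) * (r + 1) = r * (r + 1 + 1) + 1 := by ring
      omega
    obtain ⟨g, hg, hgy⟩ := exists_one_fixed (H ⊓ MulAction.stabilizer (Perm Ω) x) x
      (fun g hg => hg.2) q hq hq1 (fun g hg => h3 g hg.1) a2
    exact ⟨g, hg.1, hg.2, hgy, h1 g hg.1 x hg.2 hgy⟩
  obtain ⟨y⟩ : Nonempty Ω := Fintype.card_pos_iff.mp (by omega)
  rcases hp.eq_two_or_odd' with rfl | hodd
  · obtain ⟨g, hg, -, hgy, hgp⟩ := hx y
    refine ⟨g, hg, ?_, by rw [← pow_two, hgp]⟩
    rintro rfl
    obtain ⟨z, hz⟩ := Fintype.exists_ne_of_one_lt_card (by omega : 1 < Fintype.card Ω) y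
    exact hz (hgy z rfl)
  · set O := univ.filter (fun z => ∃ h ∈ H, h y = z) with hO
    have hinv : ∀ g ∈ H, ∀ z, g z ∈ O ↔ z ∈ O := by
      intro g hg z
      simp only [hO, mem_filter, mem_univ, true_and]
      constructor
      · rintro ⟨h, hh, e⟩
        exact ⟨g⁻¹ * h, H.mul_mem (H.inv_mem hg) hh, by simp [e]⟩
      · rintro ⟨h, hh, e⟩
        exact ⟨g * h, H.mul_mem hg hh, by simp [e]⟩
    have hyO : y ∈ O := by
      simp only [hO, mem_filter, mem_univ, true_and]
      exact ⟨1, H.one_mem, rfl⟩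
    have hall : ∀ x, x ∈ O := by
      intro x
      by_contra hxO
      obtain ⟨g, hg, hgx, hgy, hgp⟩ := hx x
      obtain ⟨g', hg', hgx', hgy', hgp'⟩ := hx y
      have m1 := modp hp g hgp O (hinv g hg)
      have m2 := modp hp g' hgp' O (hinv g' hg')
      have e1 : O.filter (fun z => g z = z) = ∅ := by
        rw [filter_eq_empty_iff]
        intro z hz hgz
        exact hxO (hgy z hgz ▸ hz)
      have e2 : O.filter (fun z => g' z = z) = {y} := by
        ext z
        simp only [mem_filter, mem_singleton]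
        exact ⟨fun h => hgy' z h.2, fun h => h ▸ ⟨hyO, hgx'⟩⟩
      rw [e1] at m1
      rw [e2] at m2
      have m3 : 0 ≡ 1 [MOD p] := by simpa using m1.trans m2.symm
      have := (Nat.modEq_iff_dvd' (by omega)).mp m3
      exact hp.one_lt.ne' (Nat.dvd_one.mp this)
    have c1 := fib_eq H (H ⊓ MulAction.stabilizer (Perm Ω) y) inf_le_left (fun g => g y)
      (by
        intro g hg g' hg'
        rw [Subgroup.mem_inf, MulAction.mem_stabilizer_iff]
        simp only [Perm.smul_def, Perm.coe_mul, Function.comp_apply]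
        constructor
        · intro h
          exact ⟨H.mul_mem (H.inv_mem hg) hg', by rw [← h]; simp⟩
        · rintro ⟨-, h⟩
          conv_lhs => rw [← h]
          simp) univ (fun z _ => by simpa [hO] using hall z)
    simp only [mem_univ, filter_true, card_univ, hq] at c1
    have hev : 2 ∣ Nat.card H := by
      rw [← card_els, c1]
      apply Dvd.dvd.mul_right
      have : Odd q := hqp ▸ hodd.pow
      exact this.add_one.two_dvd
    haveI : Fact (Nat.Prime 2) := ⟨Nat.prime_two⟩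
    obtain ⟨σ, hσ⟩ := exists_prime_orderOf_dvd_card' 2 hev
    refine ⟨σ, σ.2, ?_, ?_⟩
    · intro h
      have : σ = 1 := Subtype.ext h
      rw [this, orderOf_one] at hσ
      omega
    · have := pow_orderOf_eq_one σ
      rw [hσ, pow_two] at this
      exact congrArg Subtype.val this

/-- Primes larger than `e` that divide the order. -/
theorem prime_fix (G H0 : Subgroup (Perm Ω)) {ι : Type} [Fintype ι] (s : Perm Ω → ι)
    (hs : ∀ g ∈ G, ∀ g' ∈ G, s g = s g' → g⁻¹ * g' ∈ H0)
    (h3 : ∀ g ∈ H0, ∀ x y z, x ≠ y → x ≠ z → y ≠ z → g x = x → g y = y → g z = z → g = 1)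
    (r : ℕ) (hr : r.Prime) (hι : Fintype.card ι < r) (hd : r ∣ (els G).card) :
    ∃ f ≤ 2, f ≡ Fintype.card Ω [MOD r] := by
  classical
  haveI : Fact r.Prime := ⟨hr⟩
  rw [card_els] at hd
  obtain ⟨g, hg⟩ := exists_prime_orderOf_dvd_card' r hd
  have hg' : orderOf (g : Perm Ω) = r := by rw [Subgroup.orderOf_coe, hg]
  obtain ⟨i, j, hij, h⟩ := Fintype.exists_ne_map_eq_of_card_lt
    (fun i : Fin r => s ((g : Perm Ω) ^ (i : ℕ))) (by simpa using hι)
  have hm := hs _ (G.pow_mem g.2 i) _ (G.pow_mem g.2 j) h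
  have hne : ((g : Perm Ω) ^ (i : ℕ))⁻¹ * (g : Perm Ω) ^ (j : ℕ) ≠ 1 := by
    intro hh
    rw [inv_mul_eq_one] at hh
    exact hij (Fin.ext (pow_injOn_Iio_orderOf (by simp [hg']) (by simp [hg']) hh))
  have hp : (((g : Perm Ω) ^ (i : ℕ))⁻¹ * (g : Perm Ω) ^ (j : ℕ)) ^ r = 1 := by
    have hc : Commute ((g : Perm Ω) ^ (i : ℕ))⁻¹ ((g : Perm Ω) ^ (j : ℕ)) :=
      ((Commute.refl (g : Perm Ω)).pow_pow i j).inv_left
    have h1 : (g : Perm Ω) ^ r = 1 := hg' ▸ pow_orderOf_eq_one _
    rw [hc.mul_pow, inv_pow, ← pow_mul, ← pow_mul, mul_comm (i : ℕ), mul_comm (j : ℕ), pow_mul,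
      pow_mul, h1]
    simp
  refine ⟨_, fix_le_two _ (h3 _ hm) hne, ?_⟩
  simpa using modp hr _ hp univ (fun _ => by simp)

theorem abstract_main {p e q k : ℕ} (hp : p.Prime) (he : 0 < e) (hqp : q = p ^ e)
    (hq : Fintype.card Ω = q + 1) (hk : 6 < k) (hkq : k < q + 1)
    {𝔅 : Finset (Finset Ω)} (hSt : St k 𝔅) (G H0 : Subgroup (Perm Ω))
    (hB : ∀ g ∈ G, ∀ b ∈ 𝔅, img g b ∈ 𝔅) (htr : ∀ b ∈ 𝔅, ∀ b' ∈ 𝔅, ∃ g ∈ G, img g b = b')
    {ι : Type} [Fintype ι] (hι : Fintype.card ι ≤ e) (s : Perm Ω → ι)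
    (hs : ∀ g ∈ G, ∀ g' ∈ G, s g = s g' → g⁻¹ * g' ∈ H0)
    (h3 : ∀ g ∈ H0, ∀ x y z, x ≠ y → x ≠ z → y ≠ z → g x = x → g y = y → g z = z → g = 1)
    (h1 : ∀ g ∈ H0, ∀ x, g x = x → (∀ y, g y = y → y = x) → g ^ p = 1)
    (h2 : ∀ σ ∈ H0, σ * σ = 1 → ∀ x, σ x ≠ x → ∀ g ∈ H0, ∀ g' ∈ H0, σ * g = g * σ →
      σ * g' = g' * σ → g x = x → g' x = x → g ≠ 1 → g' ≠ 1 → g = g') : False := by
  classical
  have hfi := hSt.fisher hk (by omega)
  have hcount := hSt.count
  rw [hq] at hfi hcount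
  have hdv : ∀ i, i ≤ 6 → (k - i).choose (6 - i) ∣ (q + 1 - i).choose (6 - i) := fun i hi => by
    have := hSt.dvd i hi (by omega)
    rwa [hq] at this
  obtain ⟨T, -, hT⟩ := exists_subset_card_eq (s := (univ : Finset Ω)) (n := 6)
    (by rw [card_univ]; omega)
  obtain ⟨B0, hB0, -⟩ := hSt.ex T hT
  have hG := blocks_count G B0 𝔅 (fun b hb => htr B0 hB0 b hb)
  rw [filter_true_of_mem (fun g hg => hB g (mem_els.mp hg) B0 hB0)] at hG
  have hidx : ∀ K : Subgroup (Perm Ω), K ≤ G → (els K).card ≤ (els (K ⊓ H0)).card * e := by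
    intro K hK
    refine (all_le K (els (K ⊓ H0)) s ?_ univ (fun _ _ => mem_univ _)).trans ?_
    · intro g hg g' hg' h
      exact mem_els.mpr ⟨K.mul_mem (K.inv_mem hg) hg', hs g (hK hg) g' (hK hg') h⟩
    · rw [card_univ]; exact Nat.mul_le_mul_left _ hι
  have hpe : ∀ n, q = 2 ^ n → e ≤ n := by
    intro n hn
    have : 2 ^ e ≤ 2 ^ n := hn ▸ hqp ▸ Nat.pow_le_pow_left hp.two_le e
    exact (Nat.pow_le_pow_iff_right (by norm_num)).mp this
  subst hqp
  rcases num p e k hp he hk hfi hdv with ⟨gA, gB⟩ | ⟨hq', rfl⟩ | ⟨hq', rfl⟩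
  · set q := p ^ e with hqdef
    have hkc : 0 < k.choose 6 := Nat.choose_pos hk.le
    have b1 : e * (q * q - 1) < 𝔅.card := by
      rw [← hcount] at gA
      exact Nat.lt_of_mul_lt_mul_right gA
    have b2 : 𝔅.card ≤ (els G).card := by
      rw [hG]; exact Nat.le_mul_of_pos_right _ (els_pos _)
    have b3 : q * q - 1 < (els (G ⊓ H0)).card := by
      have := hidx G le_rfl
      rw [mul_comm] at this
      exact Nat.lt_of_mul_lt_mul_left (a := e) (by omega)
    obtain ⟨σ, hσ, hσ1, hσ2⟩ := exists_invol (G ⊓ H0) hp he hqdef hq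
      (fun g hg => h3 g hg.2) (fun g hg => h1 g hg.2) b3
    have hσσ : ∀ x, σ (σ x) = x := fun x => by
      rw [← Perm.mul_apply, hσ2, Perm.one_apply]
    have f1 := hSt.fixed σ hσσ (hB σ hσ.1)
    have f2 := fixed_le_cent G B0 σ hσ.1 (𝔅.filter (fun b => b.map σ.toEmbedding = b))
      (fun b hb => htr B0 hB0 b (mem_filter.mp hb).1) (fun b hb => (mem_filter.mp hb).2)
    have f3 := hidx (G ⊓ Subgroup.centralizer {σ}) inf_le_left
    set M := univ.filter (fun x => σ x ≠ x) with hM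
    have hm : q - 1 ≤ M.card := by
      have a := fix_le_two σ (h3 σ hσ.2) hσ1
      have b := card_filter_add_card_filter_not (s := (univ : Finset Ω)) (fun x => σ x = x)
      rw [card_univ, hq] at b
      have c : (univ.filter (fun x => ¬ σ x = x)).card = M.card := rfl
      omega
    have hq10 : 10 ≤ q := by
      have : 3 * 2 ≤ (k - 4) * (k - 5) := Nat.mul_le_mul (by omega) (by omega)
      omega
    obtain ⟨x0, hx0⟩ : M.Nonempty := card_pos.mp (by omega)
    have hx0' : σ x0 ≠ x0 := (mem_filter.mp hx0).2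
    set U := (els H0).filter (fun g => σ * g = g * σ ∧ g x0 = x0) with hU
    have hU2 : U.card ≤ 2 := by
      have : (U.erase 1).card ≤ 1 := by
        rw [card_le_one]
        intro g hg g' hg'
        simp only [hU, mem_erase, mem_filter, mem_els] at hg hg'
        exact h2 σ hσ.2 hσ2 x0 hx0' g hg.2.1 g' hg'.2.1 hg.2.2.1 hg'.2.2.1 hg.2.2.2 hg'.2.2.2
          hg.1 hg'.1
      have := pred_card_le_card_erase (s := U) (a := 1)
      omega
    have f4 : (els (G ⊓ Subgroup.centralizer {σ} ⊓ H0)).card ≤ U.card * M.card := by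
      refine all_le _ U (fun g => g x0) ?_ M ?_
      · intro g hg g' hg' h
        have hm := (G ⊓ Subgroup.centralizer {σ} ⊓ H0).mul_mem
          ((G ⊓ Subgroup.centralizer {σ} ⊓ H0).inv_mem hg) hg'
        simp only [hU, mem_filter, mem_els]
        refine ⟨hm.2, (Subgroup.mem_centralizer_iff.mp hm.1.2) σ rfl, ?_⟩
        simp only [Perm.coe_mul, Function.comp_apply]
        rw [← h]; simp
      · intro g hg
        have hc := (Subgroup.mem_centralizer_iff.mp hg.1.2) σ rfl
        simp only [hM, mem_filter, mem_univ, true_and]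
        intro hh
        rw [← Perm.mul_apply, hc, Perm.mul_apply] at hh
        exact hx0' (g.injective hh)
    have f5 : M.card * ((M.card - 2) * (M.card - 4)) ≤
        M.card * (2 * e * (k * ((k - 2) * (k - 4)))) := by
      calc M.card * ((M.card - 2) * (M.card - 4))
          ≤ (2 * M.card * e) * (k * ((k - 2) * (k - 4))) := by
            refine f1.trans (Nat.mul_le_mul_right _ (f2.trans (f3.trans ?_)))
            exact Nat.mul_le_mul_right _ (f4.trans (Nat.mul_le_mul_right _ hU2))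
        _ = _ := by ring
    have f6 := Nat.le_of_mul_le_mul_left f5 (by omega)
    have f7 : (q - 3) * (q - 5) ≤ (M.card - 2) * (M.card - 4) :=
      Nat.mul_le_mul (by omega) (by omega)
    omega
  · have he4 := hpe 4 hq'
    rw [hq'] at hcount hq
    have hb : 𝔅.card = 1768 := by
      have a : Nat.choose 7 6 = 7 := by decide
      have b : Nat.choose (16 + 1) 6 = 12376 := by rw [← ch_eq]; decide
      rw [a, b] at hcount
      omega
    obtain ⟨f, hf, hm⟩ := prime_fix G H0 s hs h3 13 (by norm_num) (by omega)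
      (by rw [hG, hb]; exact Dvd.dvd.mul_right (by norm_num) _)
    rw [hq] at hm
    unfold Nat.ModEq at hm
    omega
  · have he6 := hpe 6 hq'
    rw [hq'] at hcount hq
    have hb : 𝔅.card = 983320 := by
      have a : Nat.choose 9 6 = 84 := by decide
      have b : Nat.choose (64 + 1) 6 = 82598880 := by rw [← ch_eq]; decide
      rw [a, b] at hcount
      omega
    obtain ⟨f, hf, hm⟩ := prime_fix G H0 s hs h3 61 (by norm_num) (by omega)
      (by rw [hG, hb]; exact Dvd.dvd.mul_right (by norm_num) _)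
    rw [hq] at hm
    unfold Nat.ModEq at hm
    omega

end Pool.Agent.Lib.MP_081b1f_co
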