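import Pool.Agent.Lib.MP_081b1f_co.Grp

/-! The projective line. -/

namespace Pool.Agent.Lib.MP_081b1f_co
open Projectivization
open scoped LinearAlgebra.Projectivization

variable {F : Type} [Field F]

/-- The determinant of two vectors. -/
def dt (u w : Fin 2 → F) : F := u 0 * w 1 - u 1 * w 0

theorem dt_of_mk {u w : Fin 2 → F} {hu : u ≠ 0} {hw : w ≠ 0} (h : mk F u hu = mk F w hw) :
    dt u w = 0 := by
  obtain ⟨a, rfl⟩ := (mk_eq_mk_iff' F _ _ _ _).mp h
  simp only [dt, Pi.smul_apply, smul_eq_mul]; ring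

theorem mk_of_dt {u w : Fin 2 → F} (hu : u ≠ 0) (hw : w ≠ 0) (h : dt u w = 0) :
    mk F u hu = mk F w hw := by
  rw [mk_eq_mk_iff']
  unfold dt at h
  by_cases h0 : w 0 = 0
  · have h1 : w 1 ≠ 0 := by
      intro h1; apply hw; ext i; fin_cases i <;> simp [h0, h1]
    refine ⟨u 1 / w 1, ?_⟩
    have : u 0 = 0 := by
      rw [h0, mul_zero, sub_zero] at h
      exact (mul_eq_zero.mp h).resolve_right h1
    ext i; fin_cases i
    · simp [h0, this]
    · simp [h1]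
  · refine ⟨u 0 / w 0, ?_⟩
    ext i; fin_cases i
    · simp [h0]
    · simp only [Fin.mk_one, Pi.smul_apply, smul_eq_mul]
      field_simp
      linear_combination h

theorem span2 {u w : Fin 2 → F} (h : dt u w ≠ 0) (v : Fin 2 → F) :
    ∃ a b : F, v = a • u + b • w := by
  refine ⟨dt v w / dt u w, dt u v / dt u w, ?_⟩
  ext i; fin_cases i
  · simp only [Fin.zero_eta, Pi.add_apply, Pi.smul_apply, smul_eq_mul]
    field_simp
    unfold dt; ring
  · simp only [Fin.mk_one, Pi.add_apply, Pi.smul_apply, smul_eq_mul]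
    field_simp
    unfold dt; ring

theorem indep {u w : Fin 2 → F} (h : dt u w ≠ 0) {a b a' b' : F}
    (e : a • u + b • w = a' • u + b' • w) : a = a' ∧ b = b' := by
  have e0 := congrFun e 0
  have e1 := congrFun e 1
  simp only [Pi.add_apply, Pi.smul_apply, smul_eq_mul] at e0 e1
  constructor
  · apply mul_right_cancel₀ h
    unfold dt
    linear_combination w 1 * e0 - w 0 * e1
  · apply mul_right_cancel₀ h
    unfold dt
    linear_combination u 0 * e1 - u 1 * e0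

theorem exists_dt {u : Fin 2 → F} (hu : u ≠ 0) : ∃ w, dt u w ≠ 0 := by
  by_cases h0 : u 0 = 0
  · have h1 : u 1 ≠ 0 := by
      intro h1; apply hu; ext i; fin_cases i <;> simp [h0, h1]
    exact ⟨![1, 0], by simp [dt, h1]⟩
  · exact ⟨![0, 1], by simp [dt, h0]⟩

/-- `g` is induced by the map `L`. -/
def Rep (g : Equiv.Perm (ℙ F (Fin 2 → F))) (L : (Fin 2 → F) → (Fin 2 → F)) : Prop :=
  ∀ v hv, ∃ h, g (mk F v hv) = mk F (L v) h

theorem Rep.one : Rep (1 : Equiv.Perm (ℙ F (Fin 2 → F))) id := fun _ hv => ⟨hv, rfl⟩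

theorem Rep.mul {g g' : Equiv.Perm (ℙ F (Fin 2 → F))} {L L' : (Fin 2 → F) → (Fin 2 → F)}
    (h : Rep g L) (h' : Rep g' L') : Rep (g * g') (L ∘ L') := by
  intro v hv
  obtain ⟨a, ha⟩ := h' v hv
  obtain ⟨b, hb⟩ := h _ a
  exact ⟨b, by rw [Equiv.Perm.mul_apply, ha, hb]; rfl⟩

theorem Rep.pow {g : Equiv.Perm (ℙ F (Fin 2 → F))} {L : (Fin 2 → F) → (Fin 2 → F)}
    (h : Rep g L) (n : ℕ) : Rep (g ^ n) (L^[n]) := by
  induction n with
  | zero => exact Rep.one
  | succ n ih => rw [pow_succ, Function.iterate_succ]; exact ih.mul h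

theorem Rep.ext {g g' : Equiv.Perm (ℙ F (Fin 2 → F))} {L L' : (Fin 2 → F) → (Fin 2 → F)}
    (h : Rep g L) (h' : Rep g' L') (e : ∀ v, ∃ c : F, c • L' v = L v) : g = g' := by
  ext x
  induction x with
  | h v hv =>
    obtain ⟨a, ha⟩ := h v hv
    obtain ⟨b, hb⟩ := h' v hv
    rw [ha, hb, mk_eq_mk_iff']
    exact e v

theorem Rep.eig {g : Equiv.Perm (ℙ F (Fin 2 → F))} {L : (Fin 2 → F) → (Fin 2 → F)}
    (h : Rep g L) {v : Fin 2 → F} {hv : v ≠ 0} (e : g (mk F v hv) = mk F v hv) :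
    ∃ a : F, a ≠ 0 ∧ L v = a • v := by
  obtain ⟨a, ha⟩ := h v hv
  rw [ha, mk_eq_mk_iff'] at e
  obtain ⟨c, hc⟩ := e
  refine ⟨c, ?_, hc.symm⟩
  rintro rfl
  exact a (by rw [← hc, zero_smul])

theorem Rep.quot [Finite F] {g g' : Equiv.Perm (ℙ F (Fin 2 → F))} {σ : F → F}
    {L L' : (Fin 2 → F) → (Fin 2 → F)} (h : Rep g L) (h' : Rep g' L')
    (a : ∀ v w, L (v + w) = L v + L w) (a' : ∀ v w, L' (v + w) = L' v + L' w)
    (m : ∀ c v, L (c • v) = σ c • L v) (m' : ∀ c v, L' (c • v) = σ c • L' v)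
    (hi : Function.Injective L) :
    ∃ N : (Fin 2 → F) →ₗ[F] (Fin 2 → F), Rep (g⁻¹ * g') N := by
  have hs : Function.Surjective L := Finite.injective_iff_surjective.mp hi
  choose R hR using hs
  have h0 : L 0 = 0 := by
    have := a 0 0
    rw [add_zero] at this
    exact left_eq_add.mp this
  refine ⟨⟨⟨fun v => R (L' v), fun v w => hi ?_⟩, fun c v => hi ?_⟩, ?_⟩
  · rw [a, hR, hR, hR, a']
  · simp only [RingHom.id_apply]
    rw [m, hR, hR, m']
  · intro v hv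
    obtain ⟨b, hb⟩ := h' v hv
    have hn : R (L' v) ≠ 0 := by
      intro hh
      apply b
      rw [← hR (L' v), hh, h0]
    refine ⟨hn, ?_⟩
    obtain ⟨c, hc⟩ := h _ hn
    rw [Equiv.Perm.mul_apply, hb, Equiv.Perm.inv_eq_iff_eq]
    change _ = g (mk F (R (L' v)) hn)
    rw [hc]
    congr 1
    exact (hR _).symm

theorem Rep.inj {g : Equiv.Perm (ℙ F (Fin 2 → F))} {L : (Fin 2 → F) →ₗ[F] (Fin 2 → F)}
    (h : Rep g L) : Function.Injective L := by
  rw [injective_iff_map_eq_zero]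
  intro v hv
  by_contra hh
  obtain ⟨a, -⟩ := h v hh
  exact a hv

variable (F) in
/-- The projective linear group. -/
def PL [Finite F] : Subgroup (Equiv.Perm (ℙ F (Fin 2 → F))) where
  carrier := {g | ∃ L : (Fin 2 → F) →ₗ[F] (Fin 2 → F), Rep g L}
  one_mem' := ⟨LinearMap.id, Rep.one⟩
  mul_mem' := by
    rintro g g' ⟨L, hL⟩ ⟨L', hL'⟩
    exact ⟨L ∘ₗ L', hL.mul hL'⟩
  inv_mem' := by
    rintro g ⟨L, hL⟩
    have := Rep.quot (σ := id) hL Rep.one L.map_add (fun _ _ => rfl) L.map_smul (fun _ _ => rfl)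
      hL.inj
    rwa [mul_one] at this

theorem dt_ne {u w : Fin 2 → F} {hu : u ≠ 0} {hw : w ≠ 0} (h : mk F u hu ≠ mk F w hw) :
    dt u w ≠ 0 := fun e => h (mk_of_dt hu hw e)

theorem diag_one {g : Equiv.Perm (ℙ F (Fin 2 → F))} {L : (Fin 2 → F) →ₗ[F] (Fin 2 → F)}
    (hL : Rep g L) {u w : Fin 2 → F} (hd : dt u w ≠ 0) {α : F} (e1 : L u = α • u)
    (e2 : L w = α • w) : g = 1 := by
  refine hL.ext Rep.one (fun v => ⟨α, ?_⟩)
  obtain ⟨a, b, rfl⟩ := span2 hd v
  simp only [id, map_add, map_smul, e1, e2]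
  module

theorem PL_three [Finite F] : ∀ g ∈ PL F, ∀ x y z, x ≠ y → x ≠ z → y ≠ z → g x = x → g y = y →
    g z = z → g = 1 := by
  rintro g ⟨L, hL⟩ x y z hxy hxz hyz hx hy hz
  induction x with | h u hu => ?_
  induction y with | h w hw => ?_
  induction z with | h t ht => ?_
  have hd := dt_ne hxy
  obtain ⟨α, -, hα⟩ := hL.eig hx
  obtain ⟨β, -, hβ⟩ := hL.eig hy
  obtain ⟨γ, -, hγ⟩ := hL.eig hz
  obtain ⟨a, b, rfl⟩ := span2 hd t
  have ha : a ≠ 0 := by
    rintro rfl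
    exact hyz ((mk_eq_mk_iff' F _ _ _ _).mpr ⟨b, by simp⟩).symm
  have hb : b ≠ 0 := by
    rintro rfl
    exact hxz ((mk_eq_mk_iff' F _ _ _ _).mpr ⟨a, by simp⟩).symm
  rw [map_add, map_smul, map_smul, hα, hβ, smul_smul, smul_smul, smul_add, smul_smul,
    smul_smul] at hγ
  obtain ⟨e1, e2⟩ := indep hd hγ
  have f1 : α = γ := mul_left_cancel₀ ha (by rw [e1, mul_comm])
  have f2 : β = γ := mul_left_cancel₀ hb (by rw [e2, mul_comm])
  exact diag_one hL hd (f1 ▸ hα) (f2 ▸ hβ)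

theorem PL_one [Finite F] (p : ℕ) [CharP F p] : ∀ g ∈ PL F, ∀ x, g x = x →
    (∀ y, g y = y → y = x) → g ^ p = 1 := by
  rintro g ⟨L, hL⟩ x hx hy
  induction x with | h u hu => ?_
  obtain ⟨α, hα0, hα⟩ := hL.eig hx
  obtain ⟨w, hd⟩ := exists_dt hu
  obtain ⟨β, δ, hw⟩ := span2 hd (L w)
  have hδ : δ = α := by
    by_contra hne
    have hdt : dt u (β • u + (δ - α) • w) ≠ 0 := by
      have : dt u (β • u + (δ - α) • w) = (δ - α) * dt u w := by
        simp only [dt, Pi.add_apply, Pi.smul_apply, smul_eq_mul]; ring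
      rw [this]
      exact mul_ne_zero (sub_ne_zero.mpr hne) hd
    have ht : β • u + (δ - α) • w ≠ 0 := by
      intro h; apply hdt; rw [h]; simp [dt]
    obtain ⟨a, ha⟩ := hL _ ht
    have := hy (mk F _ ht) (by
      rw [ha, mk_eq_mk_iff']
      refine ⟨δ, ?_⟩
      rw [map_add, map_smul, map_smul, hα, hw]
      module)
    exact hdt (dt_of_mk this.symm)
  subst hδ
  have key : ∀ (n : ℕ) (a b : F), (⇑L)^[n] (a • u + b • w) =
      δ ^ n • ((a + n * (β / δ) * b) • u + b • w) := by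
    intro n a b
    induction n with
    | zero => simp
    | succ n ih =>
      rw [Function.iterate_succ_apply', ih, map_smul, map_add, map_smul, map_smul, hα, hw]
      have : β = β / δ * δ := by field_simp
      generalize β / δ = c at this ⊢
      subst this
      push_cast
      module
  refine (hL.pow p).ext Rep.one (fun v => ⟨δ ^ p, ?_⟩)
  obtain ⟨a, b, rfl⟩ := span2 hd v
  rw [key, CharP.cast_eq_zero]
  simp

theorem PL_two_aux {σ g : Equiv.Perm (ℙ F (Fin 2 → F))}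
    {A M : (Fin 2 → F) →ₗ[F] (Fin 2 → F)} (hA : Rep σ A) (hM : Rep g M) (h2 : σ * σ = 1)
    {u : Fin 2 → F} {hu : u ≠ 0} (hd : dt u (A u) ≠ 0) (hc : σ * g = g * σ)
    (hx : g (mk F u hu) = mk F u hu) (h1 : g ≠ 1) :
    ∃ α : F, α ≠ 0 ∧ M u = α • u ∧ M (A u) = (-α) • A u := by
  obtain ⟨α, hα0, hα⟩ := hM.eig hx
  obtain ⟨hw, hσ⟩ := hA u hu
  have hy : g (mk F (A u) hw) = mk F (A u) hw := by
    rw [← hσ, ← Equiv.Perm.mul_apply, ← hc, Equiv.Perm.mul_apply, hx]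
  obtain ⟨β, hβ0, hβ⟩ := hM.eig hy
  obtain ⟨a, ha0, ha⟩ := (hA.mul hA).eig (v := u) (hv := hu) (by rw [h2]; rfl)
  simp only [Function.comp_apply] at ha
  have ht : u + A u ≠ 0 := by
    intro h
    apply hd
    rw [eq_neg_of_add_eq_zero_right h]
    simp only [dt, Pi.neg_apply]; ring
  obtain ⟨b1, e1⟩ := (hA.mul hM) _ ht
  obtain ⟨b2, e2⟩ := (hM.mul hA) _ ht
  rw [hc, e2, mk_eq_mk_iff'] at e1
  obtain ⟨c, hcc⟩ := e1
  simp only [Function.comp_apply, map_add, map_smul, hα, hβ, ha] at hcc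
  have hcc' : (c * β * a) • u + (c * α) • A u = (a * α) • u + β • A u := by
    rw [add_comm ((a * α) • u), mul_smul a α, ← hcc]; module
  obtain ⟨f1, f2⟩ := indep hd hcc'
  have f3 : c * β = α := mul_right_cancel₀ ha0 (by rw [f1, mul_comm])
  have f4 : (β - α) * (β + α) = 0 := by linear_combination α * f3 - β * f2
  rcases mul_eq_zero.mp f4 with h | h
  · exact absurd (diag_one hM hd hα (sub_eq_zero.mp h ▸ hβ)) h1
  · exact ⟨α, hα0, hα, by rw [hβ, eq_neg_of_add_eq_zero_left h]⟩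

theorem PL_two [Finite F] : ∀ σ ∈ PL F, σ * σ = 1 → ∀ x, σ x ≠ x → ∀ g ∈ PL F, ∀ g' ∈ PL F,
    σ * g = g * σ → σ * g' = g' * σ → g x = x → g' x = x → g ≠ 1 → g' ≠ 1 → g = g' := by
  rintro σ ⟨A, hA⟩ h2 x hx g ⟨M, hM⟩ g' ⟨M', hM'⟩ hc hc' hg hg' h1 h1'
  induction x with | h u hu => ?_
  obtain ⟨hw, hσ⟩ := hA u hu
  have hd : dt u (A u) ≠ 0 := dt_ne (hu := hu) (hw := hw) (fun e => hx (hσ.trans e.symm))
  obtain ⟨α, hα0, e1, e2⟩ := PL_two_aux hA hM h2 hd hc hg h1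
  obtain ⟨α', hα0', e1', e2'⟩ := PL_two_aux hA hM' h2 hd hc' hg' h1'
  refine hM.ext hM' (fun v => ⟨α / α', ?_⟩)
  obtain ⟨a, b, rfl⟩ := span2 hd v
  simp only [map_add, map_smul, e1, e2, e1', e2']
  have : α = α / α' * α' := by field_simp
  generalize α / α' = c at this ⊢
  subst this
  module

theorem card_ringHom_le [Fintype F] (p : ℕ) [Fact p.Prime] [CharP F p] (e : ℕ)
    (he : Fintype.card F = p ^ e) : Nat.card (F →+* F) ≤ e := by
  letI : Algebra (ZMod p) F := ZMod.algebra F p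
  have h1 : Fintype.card F = Fintype.card (ZMod p) ^ Module.finrank (ZMod p) F :=
    Module.card_eq_pow_finrank
  rw [ZMod.card, he] at h1
  have h2 : e = Module.finrank (ZMod p) F :=
    Nat.pow_right_injective (Fact.out : p.Prime).two_le h1
  rw [h2]
  refine le_trans ?_ (card_algHom_le_finrank (ZMod p) F F)
  haveI : Finite (F →ₐ[ZMod p] F) := Finite.of_injective _ DFunLike.coe_injective
  refine Nat.card_le_card_of_injective (fun σ : F →+* F =>
    ({ σ with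
      commutes' := fun r => RingHom.congr_fun
        (Subsingleton.elim (σ.comp (algebraMap (ZMod p) F)) (algebraMap (ZMod p) F)) r } :
      F →ₐ[ZMod p] F)) ?_
  intro σ τ h
  ext x
  exact DFunLike.congr_fun h x

theorem main (F : Type) [Field F] [Fintype F] (k : ℕ) (hk : 6 < k)
    (hkq : k < Fintype.card F + 1) (B : Set (Finset (ℙ F (Fin 2 → F))))
    (hsize : ∀ b ∈ B, b.card = k)
    (hst : ∀ T : Finset (ℙ F (Fin 2 → F)), T.card = 6 → ∃! b, b ∈ B ∧ T ⊆ b)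
    (G : Subgroup (Equiv.Perm (ℙ F (Fin 2 → F))))
    (hG : ∀ g ∈ G, ∃ (σ : F →+* F) (L : (Fin 2 → F) →ₛₗ[σ] (Fin 2 → F))
      (hL : Function.Injective L), ∀ x, g x = Projectivization.map L hL x)
    (hB : ∀ g ∈ G, ∀ b ∈ B, b.map g.toEmbedding ∈ B) :
    ¬ ∀ b ∈ B, ∀ b' ∈ B, ∃ g ∈ G, b.map g.toEmbedding = b' := by
  classical
  intro htr
  obtain ⟨p, hchar, e, hp, he⟩ := FiniteField.card' F
  haveI : Fact p.Prime := ⟨hp⟩
  letI : Fintype (ℙ F (Fin 2 → F)) := Fintype.ofFinite _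
  haveI : Finite (F →+* F) := Finite.of_injective _ DFunLike.coe_injective
  letI : Fintype (F →+* F) := Fintype.ofFinite _
  have hq : Fintype.card (ℙ F (Fin 2 → F)) = Fintype.card F + 1 := by
    rw [← Nat.card_eq_fintype_card, ← Nat.card_eq_fintype_card]
    exact card_of_finrank_two F _ (by simp)
  have hG' : ∀ g : Equiv.Perm (ℙ F (Fin 2 → F)), ∃ σ : F →+* F, g ∈ G →
      ∃ L : (Fin 2 → F) → (Fin 2 → F), Rep g L ∧ (∀ v w, L (v + w) = L v + L w) ∧
        (∀ c v, L (c • v) = σ c • L v) ∧ Function.Injective L := by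
    intro g
    by_cases hg : g ∈ G
    · obtain ⟨σ, L, hL, h⟩ := hG g hg
      exact ⟨σ, fun _ => ⟨L, fun v hv => ⟨_, (h _).trans (map_mk L hL v hv)⟩, L.map_add,
        L.map_smulₛₗ, hL⟩⟩
    · exact ⟨RingHom.id F, fun h => absurd h hg⟩
  choose s hs using hG'
  have hmem : ∀ b, b ∈ Finset.univ.filter (fun b => b ∈ B) ↔ b ∈ B := by simp
  refine abstract_main (𝔅 := Finset.univ.filter (fun b => b ∈ B)) hp e.pos he hq hk hkq ?_ G (PL F)
    ?_ ?_ (ι := F →+* F) ?_ s ?_ PL_three (PL_one p) PL_two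
  · refine ⟨fun b hb => hsize b ((hmem b).mp hb), fun T hT => ?_, ?_⟩
    · obtain ⟨b, hb, -⟩ := hst T hT
      exact ⟨b, (hmem b).mpr hb.1, hb.2⟩
    · intro T hT b hb b' hb' h h'
      exact (hst T hT).unique ⟨(hmem b).mp hb, h⟩ ⟨(hmem b').mp hb', h'⟩
  · intro g hg b hb
    exact (hmem _).mpr (hB g hg b ((hmem b).mp hb))
  · intro b hb b' hb'
    exact htr b ((hmem b).mp hb) b' ((hmem b').mp hb')
  · rw [← Nat.card_eq_fintype_card]
    exact card_ringHom_le p e he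
  · intro g hg g' hg' h
    obtain ⟨L, r, a, m, i⟩ := hs g hg
    obtain ⟨L', r', a', m', -⟩ := hs g' hg'
    rw [← h] at m'
    exact Rep.quot (σ := s g) r r' a a' m m' i

end Pool.Agent.Lib.MP_081b1f_co
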